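import Pool.Agent.H77.GR.Stm

/-!
# The module PST of the project GR (helper77), by helper39
-/

set_option autoImplicit false
set_option linter.all false

namespace Pool.Agent.H39.GR

open MvPolynomial Module Pool.Agent.H77.TF Pool.Agent.H77.GR

section Basic

variable {R : Type} [CommRing R]

theorem evlR_sub (a : Fin 3 → R) (v w : Fin 3 → MvPolynomial (Fin 3) R) :
    evlR a (fun j => v j - w j) = evlR a v - evlR a w := by
  simp [evlR, mul_sub, Finset.sum_sub_distrib]

theorem evlR_add (a : Fin 3 → R) (v w : Fin 3 → MvPolynomial (Fin 3) R) :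
    evlR a (fun j => v j + w j) = evlR a v + evlR a w := by
  simp [evlR, mul_add, Finset.sum_add_distrib]

theorem evlR_mul (a : Fin 3 → R) (g : MvPolynomial (Fin 3) R)
    (v : Fin 3 → MvPolynomial (Fin 3) R) :
    evlR a (fun j => g * v j) = g * evlR a v := by
  simp only [evlR, Finset.mul_sum]
  exact Finset.sum_congr rfl fun j _ => by ring

theorem evlR_hc (a : Fin 3 → R) (m : ℕ) (v : Fin 3 → MvPolynomial (Fin 3) R) :
    evlR a (fun j => homogeneousComponent m (v j)) = homogeneousComponent m (evlR a v) := by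
  simp only [evlR, map_sum, homogeneousComponent_C_mul]

theorem evlR_hom (a : Fin 3 → R) (m : ℕ) (v : Fin 3 → MvPolynomial (Fin 3) R)
    (hv : ∀ j, (v j).IsHomogeneous m) : (evlR a v).IsHomogeneous m := by
  refine IsHomogeneous.sum _ _ _ fun j _ => ?_
  simpa using (isHomogeneous_C (Fin 3) (a j)).mul (hv j)

theorem map_evlR {R' : Type} [CommRing R'] (φ : R →+* R') (a : Fin 3 → R)
    (v : Fin 3 → MvPolynomial (Fin 3) R) :
    MvPolynomial.map φ (evlR a v) = evlR (fun i => φ (a i)) (fun j => MvPolynomial.map φ (v j)) := by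
  simp [evlR]

theorem map_linR {R' : Type} [CommRing R'] (φ : R →+* R') (a : Fin 3 → R) :
    MvPolynomial.map φ (linR a) = linR (fun i => φ (a i)) := by
  simp [linR]

theorem linR_hom (a : Fin 3 → R) : (linR a).IsHomogeneous 1 := by
  refine IsHomogeneous.sum _ _ _ fun j _ => ?_
  simpa using (isHomogeneous_C (Fin 3) (a j)).mul (isHomogeneous_X R j)

theorem dvd_hc (a : Fin 3 → R) (m : ℕ) (f : MvPolynomial (Fin 3) R) (h : linR a ∣ f) :
    linR a ∣ homogeneousComponent m f := by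
  obtain ⟨g, rfl⟩ := h
  have h1 : linR a * g =
      ∑ n ∈ Finset.range (g.totalDegree + 1), linR a * homogeneousComponent n g := by
    rw [← Finset.mul_sum, sum_homogeneousComponent]
  rw [h1, map_sum]
  refine Finset.dvd_sum fun n _ => ?_
  have h2 : (linR a * homogeneousComponent n g).IsHomogeneous (1 + n) :=
    (linR_hom a).mul (homogeneousComponent_isHomogeneous n g)
  rw [homogeneousComponent_of_mem h2]
  split_ifs
  · exact dvd_mul_right _ _
  · exact dvd_zero _

theorem map_hc {R' : Type} [CommRing R'] (φ : R →+* R') (m : ℕ) (f : MvPolynomial (Fin 3) R) :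
    MvPolynomial.map φ (homogeneousComponent m f) = homogeneousComponent m (MvPolynomial.map φ f) := by
  ext d
  rw [coeff_map, coeff_homogeneousComponent, coeff_homogeneousComponent, coeff_map]
  split_ifs <;> simp

/-- The image of `f`. -/
noncomputable def Im {ν : Type} (A : ν → Fin 3 → R) : Submodule R (ν → MvPolynomial (Fin 3) R) where
  carrier := {y | ∃ x : Fin 3 → MvPolynomial (Fin 3) R, ∀ i, linR (A i) ∣ y i - evlR (A i) x}
  zero_mem' := ⟨fun _ => 0, fun i => by simp [evlR]⟩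
  add_mem' := by
    rintro y y' ⟨x, hx⟩ ⟨x', hx'⟩
    refine ⟨fun j => x j + x' j, fun i => ?_⟩
    rw [evlR_add, Pi.add_apply]
    have : y i + y' i - (evlR (A i) x + evlR (A i) x') =
      (y i - evlR (A i) x) + (y' i - evlR (A i) x') := by ring
    rw [this]
    exact dvd_add (hx i) (hx' i)
  smul_mem' := by
    rintro c y ⟨x, hx⟩
    refine ⟨fun j => C c * x j, fun i => ?_⟩
    rw [evlR_mul, Pi.smul_apply, smul_eq_C_mul, ← mul_sub]
    exact dvd_mul_of_dvd_right (hx i) _

theorem mem_Im {ν : Type} {A : ν → Fin 3 → R} {y : ν → MvPolynomial (Fin 3) R} :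
    y ∈ Im A ↔ ∃ x : Fin 3 → MvPolynomial (Fin 3) R, ∀ i, linR (A i) ∣ y i - evlR (A i) x :=
  Iff.rfl

/-- Homogeneous tuples. -/
noncomputable def Hm (R : Type) [CommRing R] (ν : Type) (m : ℕ) : Submodule R (ν → MvPolynomial (Fin 3) R) :=
  Submodule.pi Set.univ fun _ => homogeneousSubmodule (Fin 3) R m

theorem mem_Hm {ν : Type} {m : ℕ} {y : ν → MvPolynomial (Fin 3) R} :
    y ∈ Hm R ν m ↔ ∀ i, (y i).IsHomogeneous m := by
  simp [Hm, Submodule.mem_pi]

theorem Hm_fg {ν : Type} [Fintype ν] (m : ℕ) : (Hm R ν m).FG :=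
  Submodule.fg_pi fun _ => homogeneousSubmodule_fg _ _ m

/-- Homogeneous solutions. -/
theorem Im_hom {ν : Type} {A : ν → Fin 3 → R} {m : ℕ} {y : ν → MvPolynomial (Fin 3) R}
    (hy : ∀ i, (y i).IsHomogeneous m) (h : y ∈ Im A) :
    ∃ x : Fin 3 → MvPolynomial (Fin 3) R, (∀ j, (x j).IsHomogeneous m) ∧
      ∀ i, linR (A i) ∣ y i - evlR (A i) x := by
  obtain ⟨x, hx⟩ := h
  refine ⟨fun j => homogeneousComponent m (x j), fun j => homogeneousComponent_isHomogeneous _ _,
    fun i => ?_⟩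
  rw [evlR_hc, ← homogeneousComponent_eq_self (hy i), ← map_sub]
  exact dvd_hc _ _ _ (hx i)

/-- The elements killed by a power of `ϖ`. -/
noncomputable def Tr {ν : Type} (A : ν → Fin 3 → R) (ϖ : R) (m : ℕ) : Submodule R (ν → MvPolynomial (Fin 3) R) where
  carrier := {y | (∀ i, (y i).IsHomogeneous m) ∧ ∃ j : ℕ, ϖ ^ j • y ∈ Im A}
  zero_mem' := ⟨fun i => isHomogeneous_zero _ _ _, 0, by rw [smul_zero]; exact (Im A).zero_mem⟩
  add_mem' := by
    rintro y y' ⟨hy, j, hj⟩ ⟨hy', j', hj'⟩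
    refine ⟨fun i => (hy i).add (hy' i), j + j', ?_⟩
    have : ϖ ^ (j + j') • (y + y') = ϖ ^ j' • (ϖ ^ j • y) + ϖ ^ j • (ϖ ^ j' • y') := by
      rw [smul_smul, smul_smul, smul_add, pow_add, mul_comm (ϖ ^ j')]
    rw [this]
    exact (Im A).add_mem ((Im A).smul_mem _ hj) ((Im A).smul_mem _ hj')
  smul_mem' := by
    rintro c y ⟨hy, j, hj⟩
    refine ⟨fun i => ?_, j, ?_⟩
    · rw [Pi.smul_apply, smul_eq_C_mul]
      simpa using (isHomogeneous_C (Fin 3) c).mul (hy i)
    · rw [smul_comm]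
      exact (Im A).smul_mem _ hj

theorem mem_Tr {ν : Type} {A : ν → Fin 3 → R} {ϖ : R} {m : ℕ} {y : ν → MvPolynomial (Fin 3) R} :
    y ∈ Tr A ϖ m ↔ (∀ i, (y i).IsHomogeneous m) ∧ ∃ j : ℕ, ϖ ^ j • y ∈ Im A := Iff.rfl

theorem Tr_le {ν : Type} (A : ν → Fin 3 → R) (ϖ : R) (m : ℕ) : Tr A ϖ m ≤ Hm R ν m :=
  fun _ hy => mem_Hm.2 hy.1

end Basic

section DVR

variable {R : Type} [CommRing R] [IsDomain R] [IsDiscreteValuationRing R]

theorem res_zero_iff {ϖ : R} (hϖ : Irreducible ϖ) (r : R) :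
    IsLocalRing.residue R r = 0 ↔ ϖ ∣ r := by
  rw [IsLocalRing.residue_eq_zero_iff, hϖ.maximalIdeal_eq, Ideal.mem_span_singleton]

theorem map_zero_iff {ϖ : R} (hϖ : Irreducible ϖ) (f : MvPolynomial (Fin 3) R) :
    MvPolynomial.map (IsLocalRing.residue R) f = 0 ↔ C ϖ ∣ f := by
  rw [C_dvd_iff_dvd_coeff]
  constructor
  · intro h i
    rw [← res_zero_iff hϖ, ← coeff_map, h, coeff_zero]
  · intro h
    ext i
    rw [coeff_map, coeff_zero, res_zero_iff hϖ]
    exact h i

/-- Homogeneous lifts. -/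
theorem lift_hom {m : ℕ} (f : MvPolynomial (Fin 3) (IsLocalRing.ResidueField R))
    (hf : f.IsHomogeneous m) : ∃ g : MvPolynomial (Fin 3) R, g.IsHomogeneous m ∧
      MvPolynomial.map (IsLocalRing.residue R) g = f := by
  obtain ⟨g, hg⟩ := MvPolynomial.map_surjective (IsLocalRing.residue R)
    IsLocalRing.residue_surjective f
  refine ⟨homogeneousComponent m g, homogeneousComponent_isHomogeneous _ _, ?_⟩
  rw [map_hc, hg, homogeneousComponent_eq_self hf]

/-- If the reduction of `f` is divisible then `f` is divisible up to a multiple of `ϖ`. -/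
theorem split_red {ϖ : R} (hϖ : Irreducible ϖ) (a : Fin 3 → R) {m : ℕ} (f : MvPolynomial (Fin 3) R)
    (hf : f.IsHomogeneous m)
    (h : linR (fun i => IsLocalRing.residue R (a i)) ∣ MvPolynomial.map (IsLocalRing.residue R) f) :
    ∃ y : MvPolynomial (Fin 3) R, y.IsHomogeneous m ∧ linR a ∣ f - C ϖ * y := by
  obtain ⟨h', hh'⟩ := h
  obtain ⟨g, hg⟩ := MvPolynomial.map_surjective (IsLocalRing.residue R)
    IsLocalRing.residue_surjective h'
  have h1 : MvPolynomial.map (IsLocalRing.residue R) (f - linR a * g) = 0 := by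
    rw [map_sub, map_mul, map_linR, hg, hh', sub_self]
  obtain ⟨y, hy⟩ := (map_zero_iff hϖ _).1 h1
  refine ⟨homogeneousComponent m y, homogeneousComponent_isHomogeneous _ _, ?_⟩
  have h2 : f - C ϖ * homogeneousComponent m y = homogeneousComponent m (linR a * g) := by
    rw [← homogeneousComponent_C_mul, ← hy, map_sub, homogeneousComponent_eq_self hf]
    ring
  rw [h2]
  exact dvd_hc _ _ _ (dvd_mul_right _ _)

/-- The forms are primitive. -/
theorem prim {ϖ : R} (hϖ : Irreducible ϖ) (a : Fin 3 → R)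
    (ha : (fun i => IsLocalRing.residue R (a i)) ≠ 0) (z : MvPolynomial (Fin 3) R)
    (h : linR a ∣ C ϖ * z) : linR a ∣ z := by
  obtain ⟨w, hw⟩ := h
  have hp : Prime (C ϖ : MvPolynomial (Fin 3) R) := (MvPolynomial.prime_C_iff (Fin 3)).2 hϖ.prime
  have hn : ¬ (C ϖ : MvPolynomial (Fin 3) R) ∣ linR a := by
    intro hd
    apply ha
    have h1 := (map_zero_iff hϖ _).2 hd
    rw [map_linR] at h1
    funext j
    have h2 := congrArg (MvPolynomial.eval (Pi.single j 1 : Fin 3 → IsLocalRing.ResidueField R)) h1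
    simpa [linR, Pi.single_apply] using h2
  rcases hp.dvd_or_dvd (Dvd.intro _ hw : C ϖ ∣ linR a * w) with h1 | ⟨w', rfl⟩
  · exact absurd h1 hn
  · refine ⟨w', mul_left_cancel₀ hp.ne_zero ?_⟩
    rw [hw]
    ring

theorem step_a {ϖ : R} (hϖ : Irreducible ϖ) {ν : Type} (A : ν → Fin 3 → R)
    (hA : ∀ i, (fun j => IsLocalRing.residue R (A i j)) ≠ 0) {m : ℕ} (hL : Lifts A m)
    (y : ν → MvPolynomial (Fin 3) R) (hy : ∀ i, (y i).IsHomogeneous m) (h : ϖ • y ∈ Im A) :
    y ∈ Im A := by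
  have hy' : ∀ i, ((ϖ • y) i).IsHomogeneous m := fun i => by
    rw [Pi.smul_apply, smul_eq_C_mul]
    simpa using (isHomogeneous_C (Fin 3) ϖ).mul (hy i)
  obtain ⟨x, hx, hd⟩ := Im_hom hy' h
  have h1 : mapV (IsLocalRing.residue R) x ∈ LRm (mapA (IsLocalRing.residue R) A) m := by
    refine ⟨fun i => ?_, fun j => (hx j).map _⟩
    have h2 := map_dvd (MvPolynomial.map (IsLocalRing.residue R)) (hd i)
    rw [map_linR, map_sub, map_evlR, Pi.smul_apply, smul_eq_C_mul, map_mul, map_C,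
      (res_zero_iff hϖ ϖ).2 dvd_rfl, C_0, zero_mul, zero_sub, dvd_neg] at h2
    exact h2
  obtain ⟨V, hV, hVx⟩ := hL _ h1
  have h3 : ∀ j, ∃ x', x j - V j = C ϖ * x' := fun j => by
    apply (map_zero_iff hϖ _).1
    have := congrFun hVx j
    rw [map_sub, sub_eq_zero]
    exact this.symm
  choose x' hx' using h3
  refine ⟨x', fun i => prim hϖ (A i) (hA i) _ ?_⟩
  have h4 : C ϖ * (y i - evlR (A i) x') = ((ϖ • y) i - evlR (A i) x) + evlR (A i) V := by
    rw [mul_sub, ← evlR_mul, ← funext hx', evlR_sub, Pi.smul_apply, smul_eq_C_mul]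
    ring
  rw [h4]
  exact dvd_add (hd i) (hV.1 i)

theorem step_a' {ϖ : R} (hϖ : Irreducible ϖ) {ν : Type} (A : ν → Fin 3 → R)
    (hA : ∀ i, (fun j => IsLocalRing.residue R (A i j)) ≠ 0) {m : ℕ} (hL : Lifts A m) (j : ℕ) :
    ∀ y : ν → MvPolynomial (Fin 3) R, (∀ i, (y i).IsHomogeneous m) → ϖ ^ j • y ∈ Im A →
    y ∈ Im A := by
  induction j with
  | zero =>
    intro y _ h
    simpa using h
  | succ j ih =>
    intro y hy h
    refine ih y hy (step_a hϖ A hA hL _ (fun i => ?_) ?_)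
    · rw [Pi.smul_apply, smul_eq_C_mul]
      simpa using (isHomogeneous_C (Fin 3) (ϖ ^ j)).mul (hy i)
    · rw [smul_smul, ← pow_succ']
      exact h

end DVR

theorem pst (hDEP : S_DEP) : S_PST := by
  intro R _ _ _ ν _ A e N hS hE hN m v hv
  obtain ⟨ϖ, hϖ⟩ := IsDiscreteValuationRing.exists_irreducible R
  have hA : ∀ i, (fun j => IsLocalRing.residue R (A i j)) ≠ 0 := fun i => hS.1 i
  -- Nakayama
  have key : Tr A ϖ m ≤ Im A := by
    refine Submodule.le_of_le_smul_of_le_jacobson_bot (I := IsLocalRing.maximalIdeal R)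
      ((Hm_fg m).of_le (Tr_le A ϖ m)) (IsLocalRing.maximalIdeal_le_jacobson ⊥) ?_
    rintro y ⟨hy, j, hj⟩
    obtain ⟨x, hx⟩ := hj
    -- the multiples by powers of the variables
    have h1 : ∀ t : Fin 3, ∃ φ : Fin 3 → MvPolynomial (Fin 3) (IsLocalRing.ResidueField R),
        ∀ i, lin (mapA (IsLocalRing.residue R) A i) ∣
          X t ^ N * MvPolynomial.map (IsLocalRing.residue R) (y i) -
            evl (mapA (IsLocalRing.residue R) A i) φ := by
      intro t
      have h2 : (fun i => X t ^ N * y i) ∈ Im A := by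
        refine step_a' hϖ A hA (hN (N + m) (Nat.le_add_right _ _)) j _ (fun i => ?_) ?_
        · simpa using ((isHomogeneous_X R t).pow N).mul (hy i)
        · refine ⟨fun s => X t ^ N * x s, fun i => ?_⟩
          have h3 : (ϖ ^ j • fun i => X t ^ N * y i) i - evlR (A i) (fun s => X t ^ N * x s) =
              X t ^ N * ((ϖ ^ j • y) i - evlR (A i) x) := by
            rw [evlR_mul, Pi.smul_apply, Pi.smul_apply, smul_eq_C_mul, smul_eq_C_mul]
            ring
          rw [h3]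
          exact dvd_mul_of_dvd_right (hx i) _
      obtain ⟨z, hz⟩ := h2
      refine ⟨mapV (IsLocalRing.residue R) z, fun i => ?_⟩
      have h4 := map_dvd (MvPolynomial.map (IsLocalRing.residue R)) (hz i)
      rw [map_linR, map_sub, map_evlR, map_mul, map_pow, map_X] at h4
      exact h4
    obtain ⟨φ, hφ⟩ := hDEP (IsLocalRing.ResidueField R) ν (mapA (IsLocalRing.residue R) A) e N
      (fun i => MvPolynomial.map (IsLocalRing.residue R) (y i)) hS hE h1
    -- the homogeneous component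
    have h5 : ∀ s, ∃ g : MvPolynomial (Fin 3) R, g.IsHomogeneous m ∧
        MvPolynomial.map (IsLocalRing.residue R) g = homogeneousComponent m (φ s) := fun s =>
      lift_hom _ (homogeneousComponent_isHomogeneous _ _)
    choose Φ hΦ hΦ' using h5
    have h6 : ∀ i, ∃ y' : MvPolynomial (Fin 3) R, y'.IsHomogeneous m ∧
        linR (A i) ∣ (y i - evlR (A i) Φ) - C ϖ * y' := by
      intro i
      refine split_red hϖ (A i) _ ((hy i).sub (evlR_hom _ _ _ hΦ)) ?_
      rw [map_sub, map_evlR, funext hΦ', evlR_hc, ← homogeneousComponent_eq_self ((hy i).map _),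
        ← map_sub]
      exact dvd_hc _ _ _ (hφ i)
    choose y' hy' hd using h6
    have h7 : y - ϖ • y' ∈ Im A := by
      refine ⟨Φ, fun i => ?_⟩
      have h8 : (y - ϖ • y') i - evlR (A i) Φ = (y i - evlR (A i) Φ) - C ϖ * y' i := by
        rw [Pi.sub_apply, Pi.smul_apply, smul_eq_C_mul]
        ring
      rw [h8]
      exact hd i
    have h9 : y' ∈ Tr A ϖ m := by
      refine ⟨hy', j + 1, ?_⟩
      have h10 : ϖ ^ (j + 1) • y' = ϖ ^ j • y - ϖ ^ j • (y - ϖ • y') := by
        rw [smul_sub, smul_smul, ← pow_succ]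
        abel
      rw [h10]
      exact (Im A).sub_mem ⟨x, hx⟩ ((Im A).smul_mem _ h7)
    have h11 : y = (y - ϖ • y') + ϖ • y' := by abel
    rw [h11]
    refine Submodule.add_mem_sup h7 (Submodule.smul_mem_smul ?_ h9)
    rw [hϖ.maximalIdeal_eq]
    exact Ideal.mem_span_singleton_self ϖ
  -- the lift
  have h1 : ∀ s, ∃ g : MvPolynomial (Fin 3) R, g.IsHomogeneous m ∧
      MvPolynomial.map (IsLocalRing.residue R) g = v s := fun s => lift_hom _ (hv.2 s)
  choose x hx hx' using h1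
  have h2 : ∀ i, ∃ y : MvPolynomial (Fin 3) R, y.IsHomogeneous m ∧
      linR (A i) ∣ evlR (A i) x - C ϖ * y := by
    intro i
    refine split_red hϖ (A i) _ (evlR_hom _ _ _ hx) ?_
    rw [map_evlR, funext hx']
    exact hv.1 i
  choose y hy hd using h2
  have h3 : y ∈ Tr A ϖ m := by
    refine ⟨hy, 1, x, fun i => ?_⟩
    rw [pow_one, Pi.smul_apply, smul_eq_C_mul, ← dvd_neg, neg_sub]
    exact hd i
  obtain ⟨x', hx'h, hd'⟩ := Im_hom hy (key h3)
  refine ⟨fun j => x j - C ϖ * x' j, ⟨fun i => ?_, fun j => ?_⟩, ?_⟩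
  · rw [evlR_sub, evlR_mul]
    have h4 : evlR (A i) x - C ϖ * evlR (A i) x' =
        (evlR (A i) x - C ϖ * y i) + C ϖ * (y i - evlR (A i) x') := by ring
    rw [h4]
    exact dvd_add (hd i) (dvd_mul_of_dvd_right (hd' i) _)
  · refine (hx j).sub ?_
    simpa using (isHomogeneous_C (Fin 3) ϖ).mul (hx'h j)
  · funext j
    show MvPolynomial.map (IsLocalRing.residue R) (x j - C ϖ * x' j) = v j
    rw [map_sub, map_mul, map_C, (res_zero_iff hϖ ϖ).2 dvd_rfl, C_0, zero_mul, sub_zero, hx' j]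

end Pool.Agent.H39.GR
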